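import Pool.Agent.Lib.MP_0287c7_lc.Niho

set_option autoImplicit false
open Classical

namespace Pool.Agent.Results.MP_0287c7_lc.Niho

open Pool.Agent.Lib.MP_0287c7_lc in
/-- A bent exponent of Niho type (congruent to a power of two modulo `2^(n/2) - 1`) is
cyclotomically equivalent to the quadratic Gold exponent `2^(n/2) + 1`. -/
theorem result :
    ∀ n : ℕ, Even n → 2 ≤ n →
      ∀ (F : Type) [Field F] [Fintype F], Fintype.card F = 2 ^ n →
      ∀ d : ℕ, 1 ≤ d → (∃ e : ℕ, d ≡ 2 ^ e [MOD 2 ^ (n / 2) - 1]) →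
      (∃ a : F, a ≠ 0 ∧ ∀ u : F,
        |∑ c : F,
          (if ∑ i ∈ Finset.range n, (a * c ^ d) ^ (2 ^ i) = 0 then (1 : ℤ) else -1) *
          (if ∑ i ∈ Finset.range n, (u * c) ^ (2 ^ i) = 0 then (1 : ℤ) else -1)|
          = 2 ^ (n / 2)) →
      ∃ j : ℕ, 2 ^ (n / 2) + 1 ≡ 2 ^ j * d [MOD 2 ^ n - 1] := by
  rintro n ⟨m, hm⟩ hn F _ _ hF d hd ⟨e, he⟩ ⟨a, ha, hb⟩
  have h : n = 2 * m := by omega
  have hm2 : n / 2 = m := by omega
  have : NeZero n := ⟨by omega⟩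
  have : Fact (Nat.Prime 2) := ⟨Nat.prime_two⟩
  have : CharP F 2 := charP_of_card_eq_prime_pow hF
  have hb' : Bent n d a := hb
  rw [hm2] at he ⊢
  obtain ⟨k, rfl⟩ : ∃ k, m = k + 1 := ⟨m - 1, by omega⟩
  have hq : 1 ≤ 2 ^ (k + 1) := Nat.one_le_two_pow
  have h1 : 2 ^ (k + 1) ≡ 1 [MOD 2 ^ (k + 1) - 1] := ((Nat.modEq_iff_dvd' hq).2 dvd_rfl).symm
  have h2 : 2 ^ (k * e) * d ≡ 1 [MOD 2 ^ (k + 1) - 1] := by
    have h3 := he.mul_left (2 ^ (k * e))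
    have h4 := h1.pow e
    rw [one_pow, ← pow_mul] at h4
    rw [← pow_add, show k * e + e = (k + 1) * e by ring] at h3
    exact h3.trans h4
  have hpos : 0 < 2 ^ (k * e) * d := by positivity
  have h5 := niho_dvd hF h (pow_ne_zero _ ha) hpos (hb'.equiv hF hd hpos Nat.ModEq.rfl) h2
  have hNf : 2 ^ n - 1 = (2 ^ (k + 1) - 1) * (2 ^ (k + 1) + 1) := by
    zify [Nat.one_le_two_pow]
    exact N_factor h
  have hcop : Nat.Coprime (2 ^ (k + 1) - 1) (2 ^ (k + 1) + 1) := by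
    rw [show 2 ^ (k + 1) + 1 = 2 + (2 ^ (k + 1) - 1) by omega, Nat.coprime_add_self_right,
      Nat.coprime_two_right]
    exact Nat.Even.sub_odd hq (Nat.even_pow.2 ⟨even_two, by omega⟩) odd_one
  refine ⟨k * e + 1, ?_⟩
  rw [hNf, ← Nat.modEq_and_modEq_iff_modEq_mul hcop, pow_succ' 2 (k * e), mul_assoc]
  constructor
  · exact (h1.add_right 1).trans (h2.mul_left 2).symm
  · exact ((Nat.modEq_zero_iff_dvd).2 dvd_rfl).trans
      ((Nat.modEq_zero_iff_dvd).2 (h5.mul_left 2)).symm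

end Pool.Agent.Results.MP_0287c7_lc.Niho
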